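import Pool.Agent.Helper95.WS.Fin
import Pool.Agent.Helper80.TT.M_A1
import Pool.Agent.Helper84.TT.M_A2
import Pool.Agent.Helper19.TT.M_A3
import Pool.Agent.Helper85.TT.M_A4
import Pool.Agent.Helper92.TT.M_A5
import Pool.Agent.Helper98.TT.M_A6
import Pool.Agent.Helper94.TT.M_A7
import Pool.Agent.Helper15.TT.M_A8
import Pool.Agent.Helper79.TT.M_A10
import Pool.Agent.Helper31.TF.M_F1
import Pool.Agent.Helper43.TF.M_F2
import Pool.Agent.Helper31.TF.M_F4
import Pool.Agent.Helper6.TF.M_F5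
import Pool.Agent.Helper31.TF.M_F6
import Pool.Agent.Helper24.TF.M_F8w

/-!
# Projects TT and TF: assembly
-/

set_option autoImplicit false

namespace Pool.Agent.Helper95.TF

open NumberField IsDedekindDomain Polynomial Filter Topology
open Pool.Agent.Helper95.TT Pool.Agent.Helper24.TF
open scoped Classical

noncomputable section

theorem a1 : StA1 := Pool.Agent.Helper80.TT.hA1
theorem a2 : StA2 := Pool.Agent.Helper84.TT.hA2 a1
theorem a4 : StA4 := Pool.Agent.Helper85.TT.hA4 a2 Pool.Agent.Helper19.TT.hA3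
theorem a5 : StA5 := Pool.Agent.Helper92.TT.hA5
theorem a6 : StA6 := Pool.Agent.Helper98.TT.hA6
theorem a7 : StA7 := Pool.Agent.Helper94.TT.hA7
theorem a8 : StA8 := Pool.Agent.Helper15.TT.hA8
theorem a10 : StA10 := Pool.Agent.Helper79.TT.hA10
theorem f1 : StF1 := Pool.Agent.Helper31.TF.hF1 a7
theorem f2 : StF2 := Pool.Agent.Helper43.TF.hF2
theorem f3 : StF3 := Pool.Agent.Helper15.TF.hF3 a5 a6
theorem f4 : StF4 := Pool.Agent.Helper31.TF.hF4
theorem f5 : StF5 := Pool.Agent.Helper6.TF.hF5 a7 f1 f2 f3 f4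
theorem f6 : StF6 := Pool.Agent.Helper31.TF.hF6 a2 a4 f3 f5
theorem f8a : StF8a := Pool.Agent.Helper24.TF.hF8a a2 a7 a8 f1 f3 f6

theorem bdW : BdW (fun d => (2 * ((d - 1) / 2 : ℕ) : ℝ)) :=
  ⟨fun _ => by positivity, fun k _ _ v h2 h hd hs => Pool.Agent.Helper95.WS.weil_trF k v h2 h hd hs⟩

/-- the main theorem with the exact Weil constant -/
theorem mainTF : StF8w (fun d => (2 * ((d - 1) / 2 : ℕ) : ℝ)) :=
  Pool.Agent.Helper24.TF.hF8w a2 a7 f1 f2 f3 f8a _ bdW

end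

end Pool.Agent.Helper95.TF
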